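import Pool.Agent.W555.TC.Grp

set_option autoImplicit false
set_option maxHeartbeats 1000000

namespace Pool.Agent.Results.MP_89bcae_ag.AllTwistsOnePlace

open Polynomial

/-- Normalised homogeneous coordinates of a point of projective `r`-space: the first nonzero
coordinate is `1`. -/
def Normalised {K : Type} [Field K] {r : ℕ} (v : Fin (r + 1) → K) : Prop :=
  ∃ i, v i = 1 ∧ ∀ j < i, v j = 0

/-- The points, over the extension of degree `n` of the finite field `κ`, of the hypersurface
`F = 0` of projective `2d`-space. -/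
def hypersurfacePoints (κ : Type) [Field κ] [Fintype κ] (d : ℕ)
    (F : MvPolynomial (Fin (2 * d + 1)) κ) (n : ℕ) : Set (Fin (2 * d + 1) → AlgebraicClosure κ) :=
  {v | Normalised v ∧ (∀ i, v i ^ (Fintype.card κ ^ n) = v i) ∧ MvPolynomial.aeval v F = 0}

/-- The points, over the extension of degree `n` of the finite field `κ`, of the cyclic cover
`w ^ l = F` of projective `2d`-space. -/
def coverPoints (κ : Type) [Field κ] [Fintype κ] (d l : ℕ)
    (F : MvPolynomial (Fin (2 * d + 1)) κ) (n : ℕ) :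
    Set ((Fin (2 * d + 1) → AlgebraicClosure κ) × AlgebraicClosure κ) :=
  {p | Normalised p.1 ∧ (∀ i, p.1 i ^ (Fintype.card κ ^ n) = p.1 i) ∧
    p.2 ^ (Fintype.card κ ^ n) = p.2 ∧ p.2 ^ l = MvPolynomial.aeval p.1 F}

/-- `P(0) = 1` and `T P'(T) / P(T) = ∑_{n ≥ 1} c(n) T^n`. -/
def HasLogCoeffs (P : ℤ[X]) (c : ℕ → ℤ) : Prop :=
  P.coeff 0 = 1 ∧ ((X * derivative P : ℤ[X]) : PowerSeries ℤ)
    = (P : PowerSeries ℤ) * PowerSeries.mk (fun n => if n = 0 then 0 else c n)

/-- The zeta function of the hypersurface `F = 0` is `P(T) / ∏_{j < 2d} (1 - q^j T)`. -/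
def IsHypersurfaceNumerator (κ : Type) [Field κ] [Fintype κ] (d : ℕ)
    (F : MvPolynomial (Fin (2 * d + 1)) κ) (P : ℤ[X]) : Prop :=
  HasLogCoeffs P fun n => ((hypersurfacePoints κ d F n).ncard : ℤ)
    - ∑ j ∈ Finset.range (2 * d), ((Fintype.card κ : ℤ) ^ n) ^ j

/-- The zeta function of the cover `w ^ l = F` is `1 / (P(T) ∏_{j ≤ 2d} (1 - q^j T))`. -/
def IsPrimitivePart (κ : Type) [Field κ] [Fintype κ] (d l : ℕ)
    (F : MvPolynomial (Fin (2 * d + 1)) κ) (P : ℤ[X]) : Prop :=
  HasLogCoeffs P fun n => ∑ j ∈ Finset.range (2 * d + 1), ((Fintype.card κ : ℤ) ^ n) ^ j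
    - ((coverPoints κ d l F n).ncard : ℤ)

/-- The vectors fixed by the subgroup `N`. -/
def fixedVectors {E G V : Type} [Field E] [Group G] [AddCommGroup V] [Module E V]
    (ρ : Representation E G V) (N : Subgroup G) : Submodule E V where
  carrier := {v | ∀ g ∈ N, ρ g v = v}
  add_mem' := by
    intro v w hv hw g hg
    rw [map_add, hv g hg, hw g hg]
  zero_mem' := by
    intro g _
    rw [map_zero]
  smul_mem' := by
    intro c v hv g hg
    rw [map_smul, hv g hg]

/-- The vectors fixed by `G` in the twist `g ↦ ρ(g) τ^{ψ(g)}` of the representation `ρ`. -/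
def twistedInvariants {E G V : Type} [Field E] [Group G] [AddCommGroup V] [Module E V] {l : ℕ}
    (ρ : Representation E G V) (τ : Module.End E V) (ψ : G →* Multiplicative (ZMod l)) :
    Submodule E V where
  carrier := {v | ∀ g, ρ g ((τ ^ (ψ g).toAdd.val) v) = v}
  add_mem' := by
    intro v w hv hw g
    rw [map_add, map_add, hv g, hw g]
  zero_mem' := by
    intro g
    rw [map_zero, map_zero]
  smul_mem' := by
    intro c v hv g
    rw [map_smul, map_smul, hv g]

/-- **Theorem.** Let `G` act on a finite dimensional space `V` over an algebraically closed field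
of characteristic `0`, commuting with an automorphism `τ` of order `l` without fixed vectors
(`V` the primitive part of `H^{2d}(X, E(d))`, `X : w ^ l = F` a cyclic cover of projective
`2d`-space over a field `k` containing the `l`-th roots of unity, `G` the Galois group). Let
`φ ∈ G` (a Frobenius element at a place of good reduction with residue field `κ` of `q`
elements) satisfy `det(1 - T φ | V) = R(T / q^d)`, where the zeta function of the reduction
`w ^ l = F` over `κ` is `1 / (R(T) ∏_{j ≤ 2d} (1 - q^j T))`, and the one of the hypersurface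
`F = 0` is `P_B(T) / ∏_{j < 2d} (1 - q^j T)`. Let `μ` be the multiplicity of the root `1` of
`P_B` modulo `l`. Then the classes fixed by a normal subgroup of index a power of `l` form a space
of dimension at most `(l - 1)(1 + μ)`, and the dimensions of the spaces of invariants of all the
twists of `V` by characters of order `l` add up to at most `(l - 1)(1 + μ)`. -/
theorem result (l : ℕ) [Fact l.Prime] (d m : ℕ)
    (E G V : Type) [Field E] [CharZero E] [IsAlgClosed E] [Group G] [AddCommGroup V] [Module E V]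
    [FiniteDimensional E V] (ρ : Representation E G V) (τ : Module.End E V)
    (hτ : ∑ j ∈ Finset.range l, τ ^ j = 0) (hc : ∀ g, ρ g * τ = τ * ρ g)
    (κ : Type) [Field κ] [Fintype κ] (hq : l ∣ Fintype.card κ - 1)
    (F : MvPolynomial (Fin (2 * d + 1)) κ) (_hF : F.IsHomogeneous (l * m))
    (PB : ℤ[X]) (hB : IsHypersurfaceNumerator κ d F PB)
    (R : ℤ[X]) (hR : IsPrimitivePart κ d l F R)
    (φ : G) (hφ : (LinearMap.charpoly (ρ φ)).reverse
      = (R.map (Int.castRingHom E)).comp (C (((Fintype.card κ : E) ^ d)⁻¹) * X)) :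
    (∀ (N : Subgroup G) (a : ℕ), N.Normal → N.index = l ^ a →
      Module.finrank E (fixedVectors ρ N)
        ≤ (l - 1) * (1 + rootMultiplicity 1 (PB.map (Int.castRingHom (ZMod l))))) ∧
    (∀ S : Finset (G →* Multiplicative (ZMod l)),
      ∑ ψ ∈ S, Module.finrank E (twistedInvariants ρ τ ψ)
        ≤ (l - 1) * (1 + rootMultiplicity 1 (PB.map (Int.castRingHom (ZMod l))))) := by
  have hA0 : Fintype.card κ ^ d ≠ 0 := pow_ne_zero _ Fintype.card_ne_zero
  have hA : ((Fintype.card κ ^ d : ℕ) : ZMod l) = 1 := by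
    push_cast
    rw [Pool.Agent.W555.TC.q_mod hq, one_pow]
  have eB : ∀ (n : ℕ),
      (Pool.Agent.W555.TC.Bn F n : Set (Fin (2 * d + 1) → AlgebraicClosure κ))
        = hypersurfacePoints κ d F n := by
    intro n
    ext v
    constructor
    · rintro ⟨h1, h2, h3⟩
      exact ⟨h2, (Pool.Agent.W555.TC.per_iff κ _ n v).mp h1, h3⟩
    · rintro ⟨h1, h2, h3⟩
      exact ⟨(Pool.Agent.W555.TC.per_iff κ _ n v).mpr h2, h1, h3⟩
  have eX : ∀ (n : ℕ),
      (Pool.Agent.W555.TC.Dn F l n :
        Set ((Fin (2 * d + 1) → AlgebraicClosure κ) × AlgebraicClosure κ))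
        = coverPoints κ d l F n := by
    intro n
    ext ⟨v, w⟩
    constructor
    · rintro ⟨h1, h2, h3, h4⟩
      refine ⟨h1, (Pool.Agent.W555.TC.per_iff κ _ n v).mp h2, ?_, h4⟩
      rw [← Pool.Agent.W555.TC.fr_iter]; exact h3
    · rintro ⟨h1, h2, h3, h4⟩
      refine ⟨h1, (Pool.Agent.W555.TC.per_iff κ _ n v).mpr h2, ?_, h4⟩
      rw [Pool.Agent.W555.TC.fr_iter]; exact h3
  have hB' : Pool.Agent.W555.TC.LogCoeffs PB
      (Pool.Agent.W555.TC.cB F (AlgebraicClosure κ)) := by
    have e : Pool.Agent.W555.TC.cB F (AlgebraicClosure κ)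
        = fun n => ((hypersurfacePoints κ d F n).ncard : ℤ)
          - ∑ j ∈ Finset.range (2 * d), ((Fintype.card κ : ℤ) ^ n) ^ j := by
      ext n
      unfold Pool.Agent.W555.TC.cB
      rw [eB]
    rw [e]; exact hB
  have hR' : Pool.Agent.W555.TC.LogCoeffs R
      (Pool.Agent.W555.TC.cX F (AlgebraicClosure κ) l) := by
    have e : Pool.Agent.W555.TC.cX F (AlgebraicClosure κ) l
        = fun n => ∑ j ∈ Finset.range (2 * d + 1), ((Fintype.card κ : ℤ) ^ n) ^ j
          - ((coverPoints κ d l F n).ncard : ℤ) := by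
      ext n
      unfold Pool.Agent.W555.TC.cX
      rw [eX]
    rw [e]; exact hR
  have hmult := Pool.Agent.W555.TC.mult_red_cover (K := AlgebraicClosure κ) F hq hB' hR'
  have hφ' : (LinearMap.charpoly (ρ φ)).reverse
      = (R.map (Int.castRingHom E)).comp (C (((Fintype.card κ ^ d : ℕ) : E)⁻¹) * X) := by
    rw [hφ]
    push_cast
    rfl
  have hker : ∀ a : ℕ, Module.finrank E (LinearMap.ker ((ρ φ) ^ (l ^ a) - 1))
      ≤ (l - 1) * (1 + rootMultiplicity 1 (PB.map (Int.castRingHom (ZMod l)))) := by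
    intro a
    rw [← hmult]
    exact Pool.Agent.W555.TC.finrank_fixed_le (ρ φ) hR.1 hA0 hA hφ' a
  refine ⟨fun N a hN ha => ?_, fun S => ?_⟩
  · refine le_trans (Submodule.finrank_mono ?_) (hker a)
    intro v hv
    rw [LinearMap.mem_ker, LinearMap.sub_apply, ← map_pow, Module.End.one_apply, sub_eq_zero]
    apply hv
    rw [← ha]
    exact N.pow_index_mem φ
  · have h1 := Pool.Agent.W555.TC.sum_finrank_le ρ τ hτ hc S φ
    have h2 := hker 1
    rw [pow_one] at h2
    exact h1.trans h2

end Pool.Agent.Results.MP_89bcae_ag.AllTwistsOnePlace
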