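import Mathlib
import Pool.Agent.W529.Ta.DiscMain

/-!
# The Tate conjecture for the divisors on a surface from the degrees and the discriminants of the
characteristic polynomials of finitely many Frobenius elements

Let `X` be a smooth projective surface over a finitely generated field `k` of any characteristic,
`ℓ` a prime different from the characteristic, `V = H²(X_{\bar k}, ℚ_ℓ(1))` with the cup product `ω`
(symmetric, nondegenerate, invariant), and `A = NS(X_{\bar k}) ⊗ ℚ_ℓ` inside `V`.  Let `γ_j` be
Frobenius elements at closed points of good reduction of a model of `X`, with characteristic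
polynomials on `V`

  `P_j = (characteristic polynomial on A) * U_j * Q_j`,

where all roots of `U_j` and no roots of `Q_j` are roots of unity.  Suppose that for every `d > 0`
one of the following holds.

(i) For some `j` the polynomial `U_j` has no divisor of degree `d` over `ℚ_ℓ` (this is the case for
  all `d > deg U_j`).

(ii) For some `i`, `j` the polynomials `U_i` and `U_j` have the degree `d` and
  `Q_i(1) Q_i(-1) Q_j(1) Q_j(-1)` is not a square in `ℚ_ℓ`.

Then the map `NS(X) ⊗ ℚ_ℓ → H²(X_{\bar k}, ℚ_ℓ(1))^{G_k}` is an isomorphism, and the same is true over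
all finite extensions of `k`: all Tate classes lie in `A`.

The classical upper bound (one place and `U_j = 1`) can never be used if `dim V - dim A` is odd, since
then every Frobenius element has an eigenvalue `1` or `-1` outside of `A`.  The theorem covers this
case: two places with `deg U_j = 1` and different discriminants are enough.  For the Néron-Severi
rank of a K3 surface this is the method of van Luijk and Kloosterman, which uses the Tate conjecture
and the Artin-Tate formula for the reductions; here nothing is assumed about the reductions, `p_g` is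
arbitrary, and the conclusion is about the Tate classes, so that the Tate conjecture for `X` is part
of the result and not of the hypotheses.

In the Lean statement `Γ` is the Galois group; the data `V`, `ρ`, `ω`, `A`, `γ_j` are arbitrary with
these properties.

The proof.  Let `W` be the space of all Tate classes; it contains `A`.  The characteristic polynomial
of `γ_j` on `W / A` divides `U_j`, which excludes the dimensions `d` in (i).  In case (ii) the space
`W` is the whole part of `V` on which the eigenvalues of `γ_i` (of `γ_j`) are roots of unity, so that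
`V` is the orthogonal sum of `W` and a space `T` on which `γ_i` and `γ_j` have the characteristic
polynomials `Q_i` and `Q_j`.  The form `ω(x, (γ - γ⁻¹) y)` on `T` is alternating for both; alternating
nondegenerate forms are equivalent, therefore `det (γ_i - γ_i⁻¹) det (γ_j - γ_j⁻¹)` is a square, and it
is equal to `Q_i(1) Q_i(-1) Q_j(1) Q_j(-1)`.
-/

namespace Pool.Agent.Results.MP_89bcae_ag.DegreesAndDiscriminants

open Module Polynomial

/-- The degrees of the divisors of the root-of-unity parts `U j` outside of the space `A` of known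
classes, and the discriminants `Q j (1) * Q j (-1)` of the other parts, exclude all dimensions `d > 0`
of spaces of further Tate classes: every vector which is fixed by a subgroup of finite index lies
in `A`. -/
theorem result (ℓ : ℕ) [Fact ℓ.Prime]
    {V : Type} [AddCommGroup V] [Module ℚ_[ℓ] V] [FiniteDimensional ℚ_[ℓ] V]
    {Γ : Type} [Group Γ] (ρ : Representation ℚ_[ℓ] Γ V)
    (ω : V →ₗ[ℚ_[ℓ]] V →ₗ[ℚ_[ℓ]] ℚ_[ℓ]) (hsymm : ∀ u v, ω u v = ω v u)
    (hnondeg : ∀ u, (∀ v, ω u v = 0) → u = 0)
    (hω : ∀ s u v, ω (ρ s u) (ρ s v) = ω u v)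
    (A : Submodule ℚ_[ℓ] V) (hAstable : ∀ s, ∀ a ∈ A, ρ s a ∈ A)
    (hA : ∀ a ∈ A, ∃ Δ : Subgroup Γ, Δ.FiniteIndex ∧ ∀ s ∈ Δ, ρ s a = a)
    {J : Type} (γ : J → Γ) (U Q : J → ℚ_[ℓ][X])
    (hP : ∀ j, (ρ (γ j)).charpoly =
      ((ρ (γ j)).restrict (hAstable (γ j))).charpoly * U j * Q j)
    (hUmonic : ∀ j, (U j).Monic) (hQmonic : ∀ j, (Q j).Monic)
    (hU : ∀ j, ∀ z : AlgebraicClosure ℚ_[ℓ], aeval z (U j) = 0 → ∃ m : ℕ, 0 < m ∧ z ^ m = 1)
    (hQ : ∀ j, ∀ z : AlgebraicClosure ℚ_[ℓ], aeval z (Q j) = 0 → ∀ m : ℕ, 0 < m → z ^ m ≠ 1)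
    (hmain : ∀ d : ℕ, 0 < d →
      (∃ j, ∀ f : ℚ_[ℓ][X], f ∣ U j → f.natDegree ≠ d) ∨
      (∃ i j, (U i).natDegree = d ∧ (U j).natDegree = d ∧
        ¬ IsSquare ((Q i).eval 1 * (Q i).eval (-1) * ((Q j).eval 1 * (Q j).eval (-1))))) :
    ∀ v, (∃ Δ : Subgroup Γ, Δ.FiniteIndex ∧ ∀ s ∈ Δ, ρ s v = v) → v ∈ A :=
  Pool.Agent.W529.Ta.tate_of_disc ω ρ hsymm hnondeg hω A hAstable hA γ U Q hP hUmonic hQmonic hU hQ
    hmain

end Pool.Agent.Results.MP_89bcae_ag.DegreesAndDiscriminants
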