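import Pool.Agent.W528.HA.Main
import Pool.Agent.W800.HA.GD
import Pool.Agent.W839.HA.JU
import Pool.Agent.W346.HA.NG
import Pool.Agent.W991.HA.TX
import Pool.Agent.W368.HA.AX
import Pool.Agent.W800.HA.TE
import Pool.Agent.W782.HA.AL
import Pool.Agent.W605.HA.BD
import Pool.Agent.W346.HA.EM

set_option autoImplicit false

namespace Pool.Agent.Results.MP_89bcae_ag.LineArrangementCovers

open Pool.Agent.W528.HA

/-- **The Tate conjecture for abelian covers of projective space branched along hyperplanes.**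

Geometry (`d = 1`: surfaces). Let `X → P^{2d}` be an abelian cover of exponent dividing `N`,
branched along hyperplanes `l_i = 0` in general position, over a finitely generated field `k`.
The middle cohomology `H^{2d}(X, E(d))` of a smooth projective model is the sum of a part spanned
by algebraic classes and of `V`, the sum of the spaces `W_χ` belonging to the characters `χ` of the
cover with at least `2d + 2` branch hyperplanes; the character `χ` is given by the function
`∏ l_i ^ (a_χ i)` modulo `N`-th powers. For the Frobenius element `φ` at a place with residue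
field `κ`, over which the arrangement is still in general position, the Grothendieck-Lefschetz
formula expresses the traces of the powers of `φ` on `W_χ` by the sums `kummerSum`
(`TraceFormula`).

Theorem: if the characteristic `c` of `κ` is `1` modulo `N`, and every `χ` has a conjugate `χ ^ j`
with `∑_i ((j * a_χ i) mod N) ≤ d N`, then no nonzero vector of `V` is fixed by a subgroup of
finite index. -/
theorem result (N d : ℕ) (hN : 2 ≤ N) (c : ℕ) [Fact c.Prime] (hc : N ∣ c - 1)
    (κ : Type) [Field κ] [Fintype κ] [CharP κ c]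
    (ι : Type) [Fintype ι] (l : ι → Fin (2 * d + 1) → κ) (z : κ) (hz : IsPrimitiveRoot z N)
    (E : Type) [Field E] [CharZero E] [IsAlgClosed E] (μ : E) (hμ : IsPrimitiveRoot μ N)
    (G : Type) [Group G] (V : Type) [AddCommGroup V] [Module E V] [FiniteDimensional E V]
    (ρ : Representation E G V)
    (X : Type) [Fintype X] [DecidableEq X] (W : X → Submodule E V)
    (hW : DirectSum.IsInternal W) (hstab : ∀ χ g, ∀ v ∈ W χ, ρ g v ∈ W χ)
    (a : X → ι → ℕ) (ha : ∀ χ i, a χ i < N) (hsum : ∀ χ, N ∣ ∑ i, a χ i)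
    (hj : ∀ χ, ∃ j : ℕ, j.Coprime N ∧ ∑ i, (j * a χ i) % N ≤ d * N)
    (φ : G) (hφ : ∀ χ, TraceFormula κ N d l (a χ) z μ ((ρ φ).restrict (hstab χ φ)))
    (H : Subgroup G) (hH : H.FiniteIndex) (v : V) (hv : ∀ g ∈ H, ρ g v = v) : v = 0 := by
  classical
  obtain ⟨m, hm, hmH⟩ : ∃ m : ℕ, 0 < m ∧ φ ^ m ∈ H :=
    ⟨_, Nat.factorial_pos H.index, Subgroup.pow_mem_of_index_ne_zero_of_dvd
      hH.index_ne_zero φ (fun i hi hi' => Nat.dvd_factorial hi hi')⟩
  have hfix := hv _ hmH
  -- decompose
  obtain ⟨w, hw⟩ : ∃ w : (Π₀ χ, W χ), DirectSum.coeAddMonoidHom W w = v := hW.surjective v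
  have hpow : ∀ (χ : X) (n : ℕ) (u : W χ),
      ((((ρ φ).restrict (hstab χ φ)) ^ n) u : V) = (ρ φ ^ n) (u : V) := by
    intro χ n
    induction n with
    | zero => intro u; rfl
    | succ n ih =>
      intro u
      rw [pow_succ, Module.End.mul_apply, ih, pow_succ, Module.End.mul_apply]
      rfl
  set w' : (Π₀ χ, W χ) := DFinsupp.mapRange
    (fun χ u => (((ρ φ).restrict (hstab χ φ)) ^ m) u) (fun χ => map_zero _) w with hw'
  have h1 : DirectSum.coeAddMonoidHom W w' = v := by
    rw [← hfix, ← hw, map_pow]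
    rw [DirectSum.coeAddMonoidHom_eq_dfinsuppSum, DirectSum.coeAddMonoidHom_eq_dfinsuppSum]
    rw [DFinsupp.sum_mapRange_index (fun _ => rfl)]
    rw [DFinsupp.sum, DFinsupp.sum, map_sum]
    exact Finset.sum_congr rfl fun χ _ => hpow χ m (w χ)
  have h2 : w' = w := hW.injective (h1.trans hw.symm)
  have h3 : ∀ χ, w χ = 0 := by
    intro χ
    obtain ⟨j, hj1, hj2⟩ := hj χ
    have h4 : (((ρ φ).restrict (hstab χ φ)) ^ m) (w χ) = w χ := by
      have h5 := congrArg (fun u : (Π₀ χ, W χ) => u χ) h2
      simpa [hw'] using h5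
    exact no_root Pool.Agent.W800.HA.GD.main
      (Pool.Agent.W346.HA.NG.main Pool.Agent.W839.HA.JU.main) Pool.Agent.W368.HA.AX.main
      Pool.Agent.W991.HA.TX.main Pool.Agent.W800.HA.TE.main Pool.Agent.W782.HA.AL.main
      Pool.Agent.W605.HA.BD.main Pool.Agent.W346.HA.EM.main hN hc κ d l (a χ) (ha χ) (hsum χ)
      hj1 hj2 hz hμ _ (hφ χ) m hm (w χ) h4
  rw [← hw, show w = 0 from DFinsupp.ext h3, map_zero]

end Pool.Agent.Results.MP_89bcae_ag.LineArrangementCovers
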